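import Pool.Agent.Q93.OS.Order

/-!
# No non-solvable group of order 3660 has minimal order sequence

In a non-solvable group `G` of order `3660 = 60 * 61` the Sylow `61`-subgroup `Q` is central, so at
most `60` elements have order at most `60`. The affine group of the field with `61` elements is
solvable, all its elements have order at most `61`, and `62` of them have order at most `2`. Hence
its order sequence is strictly dominated by that of `G`.
-/

namespace Pool.Agent.Results.MP_e15593_al.Order3660

open Pool.Agent.Q93.OS

theorem result :
    (∃ (G : Type) (_ : Group G) (_ : Fintype G),
      Fintype.card G = 3660 ∧ ¬ Group.IsSolvable G) ∧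
    ∀ (G : Type) [Group G] [Fintype G], Fintype.card G = 3660 → MinimalOS G →
      Group.IsSolvable G := by
  refine ⟨exists_nonsolvable, ?_⟩
  intro G _ _ h hmin
  by_contra hns
  exact not_minimal h hns hmin

end Pool.Agent.Results.MP_e15593_al.Order3660
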